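import Pool.Agent.H904R4.Final

/-!
# The strongly Haar meager sets need not be an ideal

A subset `A` of an abelian Polish group `X` is strongly Haar meager (`StronglyHaarMeager A`) if
there are a Borel set `B ⊇ A` and a nonempty compact set `C ⊆ X` such that `(B + g) ∩ C` is meager
in `C` for every `g : X`.

The group is the group of the sequences in `ℤ × ℤ × ℤ/2`. Idea of the proof. The witness for the
first set is a compact set `C0` of sequences with second coordinates `0, 1` and such that the
support of the second coordinates becomes sparser after each `1` in the third coordinates; the
witness for the second set is the compact group `C1` of all third coordinates. For a closed set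
`W` let `D0 W` and `D1 W` be obtained from `W` by removing certain closed sets built from the
translates of pieces of `C0` and of `C1` which are in `W`, so that each translate of `C0` meets
`D0 W` in a nowhere dense set and the same for `C1` and `D1 W`. The first coordinates are used to
code all compact sets `W`, and the two sets are the sets of the points `g` whose first
coordinates code a closed set `W` such that the decoded point is in `D0 W` or in `D1 W`. If the
union were strongly Haar meager with witness `C`, then for all relatively open closed parts `W`
of `C` some of the removed closed sets would have nonempty interior in `C`. By the invariance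
under third coordinates coming from the second kind, a point of a small part with maximal second
coordinates (for a strictly increasing continuous functional) could be increased, a contradiction.
-/

set_option autoImplicit false

namespace Pool.Agent.Results.MP_056111_lc.NotIdeal

open Pool.Agent.H904R4

/-- There are an abelian Polish group `X` and two Borel strongly Haar meager subsets of `X` whose
union is not strongly Haar meager; in particular there is a sequence of strongly Haar meager
subsets of `X` whose union is not strongly Haar meager. -/
theorem result : ∃ (X : Type) (_ : AddCommGroup X) (_ : TopologicalSpace X)
    (_ : IsTopologicalAddGroup X) (_ : PolishSpace X),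
    (∃ A B : Set X, @MeasurableSet X (borel X) A ∧ @MeasurableSet X (borel X) B ∧
      StronglyHaarMeager A ∧ StronglyHaarMeager B ∧ ¬ StronglyHaarMeager (A ∪ B)) ∧
    ∃ A : ℕ → Set X, (∀ n, StronglyHaarMeager (A n)) ∧ ¬ StronglyHaarMeager (⋃ n, A n) := by
  refine ⟨G, inferInstance, inferInstance, inferInstance, inferInstance,
    ⟨A0, A1, borel_A0, borel_A1, shm_A0, shm_A1, not_shm_union⟩,
    fun n => if n = 0 then A0 else A1, ?_, ?_⟩
  · intro n
    by_cases hn : n = 0
    · simpa [hn] using shm_A0
    · simpa [hn] using shm_A1
  · have : (⋃ n : ℕ, (if n = 0 then A0 else A1)) = A0 ∪ A1 := by
      ext x
      simp only [Set.mem_iUnion, Set.mem_union]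
      constructor
      · rintro ⟨n, hn⟩
        by_cases h : n = 0
        · left; simpa [h] using hn
        · right; simpa [h] using hn
      · rintro (h | h)
        · exact ⟨0, by simpa using h⟩
        · exact ⟨1, by simpa using h⟩
    rw [this]
    exact not_shm_union

end Pool.Agent.Results.MP_056111_lc.NotIdeal
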